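import Pool.Agent.V11296.CX5

/-!
The Liouville function at the values of a quadratic polynomial `f` whose discriminant is one of
`-3, -4, -7, -8, -11, -19, -43, -67, -163`, `n` in an arithmetic progression, jointly with the parities
of the numbers of the prime factors of `f(n)` in the residue classes modulo `m`: the factorisations
`f(n) = d d'`, the numbers of the prime factors of `d` and of `d'` modulo `k`, and the set of the classes
modulo `m` which contain an odd number of the prime factors of `f(n)`.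

The starting files `MonicQuadratic` and `MonicQuadraticsLogTwo` of this problem have both signs of
completely multiplicative functions with values `1`, `-1` (`m = 1`, `k = 2`), for all monic quadratic
polynomials. The cancellation theorem for `g₁(d) g₂(d')`
(`W251.EG.twG`), the criterion for aperiodicity `W251.EG.apdE`, the lower bound for the number of pairs
`W251.EG.lowqG` and the passage from pairs to integers `TH890.DV.cnt_core` used here are those of the
starting files. The theorem is the one of our `QuadraticFactorPatterns` (problem MP_d639b3_nt).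
-/

set_option autoImplicit false

namespace Pool.Agent.Results.MP_892e4c_nt.ClassPatterns

open Finset Filter

open scoped Classical in
/-- the set of the positive integers `X` with `P X` has logarithmic density `0` -/
def LogNull (P : ℕ → Prop) : Prop :=
  Tendsto (fun Z : ℕ => (∑ X ∈ (Icc 1 Z).filter P, 1 / (X : ℝ)) / Real.log Z) atTop (nhds 0)

/-- the nine pairs `(t, c)` with `t` in `{0, 1}` and `x^2+tx+c` of discriminant `-4`, `-8`, `-3`,
`-7`, `-11`, `-19`, `-43`, `-67`, `-163` -/
def nine : List (ℕ × ℕ) :=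
  [(0, 1), (0, 2), (1, 1), (1, 2), (1, 3), (1, 5), (1, 11), (1, 17), (1, 41)]

open scoped Classical in
/-- the number of the prime factors of `N` in a residue class modulo `m`, counted with
multiplicity -/
noncomputable def factorsIn (m N : ℕ) (b : ZMod m) : ℕ :=
  N.primeFactorsList.countP (fun p : ℕ => (p : ZMod m) = b)

open scoped Classical in
/-- the set of the residue classes modulo `m`, prime to `m`, which contain an odd number of the
prime factors of `N`, counted with multiplicity -/
noncomputable def oddClasses (m : ℕ) [NeZero m] (N : ℕ) : Finset (ZMod m)ˣ :=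
  univ.filter (fun b => Odd (factorsIn m N b))

/-- the number of the prime factors of `d` (with multiplicity) is `≡ i mod k`, that of `d'` is
`≡ j mod k`, and `T` is the set of the classes modulo `m`, prime to `m`, which contain an odd number
of the prime factors of `d d'` -/
def PairPattern (m k i j : ℕ) [NeZero m] (T : Finset (ZMod m)ˣ) (d d' : ℕ) : Prop :=
  d.primeFactorsList.length ≡ i [MOD k] ∧ d'.primeFactorsList.length ≡ j [MOD k] ∧
    oddClasses m (d * d') = T

/-- `b` is the residue class of a value `x^2+txy+cy^2` prime to `m` -/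
def IsNorm (t c m : ℕ) (b : ZMod m) : Prop := ∃ x y : ℤ,
  IsCoprime (x ^ 2 + t * x * y + c * y ^ 2) (m : ℤ) ∧
  ((x ^ 2 + t * x * y + c * y ^ 2 : ℤ) : ZMod m) = b

/-- `T` consists of classes of norms, `|T| ≡ i + j mod 2` if `k` is even, and
`v ≡ s^2 ∏_{b ∈ T} b mod m` for the class `s` of a norm -/
def Admissible (t c m k v i j : ℕ) (T : Finset (ZMod m)ˣ) : Prop :=
  (∀ b ∈ T, IsNorm t c m b) ∧ (2 ∣ k → T.card ≡ i + j [MOD 2]) ∧
  ∃ s : ZMod m, IsNorm t c m s ∧ (v : ZMod m) = s ^ 2 * ∏ b ∈ T, (b : ZMod m)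

open scoped Classical in
/-- the number `R` of the admissible triples `(i, j, T)`, `0 ≤ i, j < k` -/
noncomputable def triples (t c m k v : ℕ) [NeZero m] : ℕ :=
  ((range k ×ˢ range k ×ˢ (univ : Finset (Finset (ZMod m)ˣ))).filter
    (fun x => Admissible t c m k v x.1 x.2.1 x.2.2)).card

open scoped Classical in
/-- the pairs `(d, d')` of positive integers with `s₁ X < d ≤ s₂ X`, `s₃ X < d' ≤ s₄ X`, `d ≡ r mod q`
and `d d' = A n^2 + B n + C` for some `n ≥ 0`, `n ≡ u mod q` -/
noncomputable def pairs (A B C q u r : ℕ) (s₁ s₂ s₃ s₄ : ℝ) (X : ℕ) : Finset (ℕ × ℕ) :=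
  ((Icc 1 ⌊s₂ * X⌋₊) ×ˢ (Icc 1 ⌊s₄ * X⌋₊)).filter
    (fun p => s₁ * X < (p.1 : ℝ) ∧ s₃ * X < (p.2 : ℝ) ∧ p.1 ≡ r [MOD q] ∧
      ∃ n : ℕ, p.1 * p.2 = A * n ^ 2 + B * n + C ∧ n ≡ u [MOD q])

open scoped Classical in
/-- the number of the integers `0 ≤ n ≤ X`, `n ≡ u mod q`, with a factorisation
`A n^2 + B n + C = d d'`, `d, d' ≤ X`, with the pattern given by `i`, `j`, `T` -/
noncomputable def count (A B C q u m k i j : ℕ) [NeZero m] (T : Finset (ZMod m)ˣ) (X : ℕ) : ℕ :=
  ((range (X + 1)).filter (fun n : ℕ => n ≡ u [MOD q] ∧ ∃ d d' : ℕ, d ≤ X ∧ d' ≤ X ∧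
    d * d' = A * n ^ 2 + B * n + C ∧ PairPattern m k i j T d d')).card

open scoped Classical in
/-- Let `f = A x^2 + B x + C`, `A ≥ 1`, `B, C ≥ 0`, have the discriminant of `x^2+tx+c`, one of the nine
polynomials, let `m, k, q ≥ 1`, let `m` divide `q`, and let `f(u)` be prime to `m`. Let `i`, `j` be
integers and `T` a set of residue classes modulo `m`, prime to `m`.

1. If some `f(n) = d d'`, `n ≡ u mod q`, has `Ω(d) ≡ i`, `Ω(d') ≡ j mod k` and `T` is the set of the
  classes prime to `m` which contain an odd number of the prime factors of `f(n)`, then `(i, j, T)` is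
  admissible: `T` consists of classes of norms, `|T| ≡ i + j mod 2` if `k` is even, and
  `f(u) ≡ s^2 ∏_{b ∈ T} b mod m` for the class `s` of a norm.
2. Let `(i, j, T)` be admissible and let `R` be the number of the admissible triples `(i, j, T)` with
  `0 ≤ i, j < k`. For almost all `X` the number of the elements of `pairs` with the pattern
  `(i, j, T)` is `1/R` times the number of the elements of `pairs`, up to `ε X`, for every `ε > 0`.
3. If `(i, j, T)` is admissible, then for every `ε > 0` and almost all `X` at least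
  `X / (log X)^(log 2 + ε)` of the integers `n ≤ X`, `n ≡ u mod q`, have a factorisation
  `f(n) = d d'`, `d, d' ≤ X`, with the pattern `(i, j, T)`; and for every `δ > 0` and all large `X`
  there are at least `X^(1 - δ)` such `n`. -/
theorem result (t c : ℕ) (htc : (t, c) ∈ nine) (A B C : ℕ) (hA : 1 ≤ A)
    (hdisc : (B : ℤ) ^ 2 - 4 * A * C = (t : ℤ) ^ 2 - 4 * c) (m k q u : ℕ) [NeZero m] (hk : 1 ≤ k)
    (hq : 1 ≤ q) (hmq : m ∣ q) (hu : (A * u ^ 2 + B * u + C).Coprime m) (i j : ℕ)
    (T : Finset (ZMod m)ˣ) :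
    (∀ n d d' : ℕ, n ≡ u [MOD q] → d * d' = A * n ^ 2 + B * n + C → PairPattern m k i j T d d' →
      Admissible t c m k (A * u ^ 2 + B * u + C) i j T) ∧
    (Admissible t c m k (A * u ^ 2 + B * u + C) i j T →
      (∀ (r : ℕ) (s₁ s₂ s₃ s₄ : ℝ), 0 ≤ s₁ → s₁ < s₂ → 0 ≤ s₃ → s₃ < s₄ → ∀ ε : ℝ, 0 < ε →
        LogNull (fun X => ε * X <
          |(((pairs A B C q u r s₁ s₂ s₃ s₄ X).filter
            (fun p => PairPattern m k i j T p.1 p.2)).card : ℝ) -
            1 / (triples t c m k (A * u ^ 2 + B * u + C) : ℝ) *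
              ((pairs A B C q u r s₁ s₂ s₃ s₄ X).card : ℝ)|)) ∧
      (∀ ε : ℝ, 0 < ε → LogNull (fun X =>
        (count A B C q u m k i j T X : ℝ) < X / Real.log X ^ (Real.log 2 + ε))) ∧
      ∀ δ : ℝ, 0 < δ → ∃ X₀ : ℕ, ∀ X : ℕ, X₀ ≤ X →
        (X : ℝ) ^ (1 - δ) ≤ count A B C q u m k i j T X) := by
  obtain ⟨_, χ, hF⟩ := Pool.Agent.W251.EG.fd9 t c htc
  have hk0 : NeZero k := ⟨by omega⟩
  have hm1 : 1 ≤ m := Nat.one_le_iff_ne_zero.2 (NeZero.ne m)
  have ha : (0 : ℤ) < (A : ℤ) := by exact_mod_cast hA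
  have hqv : ∀ n : ℕ, Pool.Agent.W78.EG.qv (A : ℤ) (B : ℤ) (C : ℤ) n = A * n ^ 2 + B * n + C := by
    intro n
    have h1 := Pool.Agent.V11296.CX.qv_cast hF ha hdisc n
    exact_mod_cast h1
  have hu' : (Pool.Agent.W78.EG.qv (A : ℤ) (B : ℤ) (C : ℤ) u).Coprime m := by
    rw [hqv]
    exact hu
  refine ⟨fun n d d' hn hdd hp => ?_, fun hAd => ?_⟩
  · have h1 := Pool.Agent.V11296.CX.nec_pair hF ha hdisc hmq hu' T hn
      (by exact_mod_cast hdd) hp.1 hp.2.1 hp.2.2
    rw [hqv] at h1
    exact h1
  · have hAd' : Pool.Agent.V11296.CQ.Admn t c m k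
        (Pool.Agent.W78.EG.qv (A : ℤ) (B : ℤ) (C : ℤ) u) (i + j) T := by
      rw [hqv]
      exact hAd
    have hg := Pool.Agent.V11296.CW.gpk t c m k hm1
    have hal := Pool.Agent.V11296.CX.alf_pair hF hm1 hk ha hdisc hmq hu' T hAd'
    have hcard := Pool.Agent.V11296.CX.card_AT (k := k) hF ha hdisc hq hmq hu'
    have hR : ((Pool.Agent.V11296.CX.AT t c m k
        (Pool.Agent.W78.EG.qv (A : ℤ) (B : ℤ) (C : ℤ) u)).card : ℝ) =
        (triples t c m k (A * u ^ 2 + B * u + C) : ℝ) := by
      rw [hqv]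
      unfold triples
      congr 2
    rw [hR] at hcard
    have hiff : ∀ d d' : ℕ, d ≠ 0 → d' ≠ 0 → (Pool.Agent.V11296.CW.H1 m k d +
        Pool.Agent.V11296.CW.H2 m k d' =
        (((i : ZMod k), (j : ZMod k), ∑ b ∈ T, Pool.Agent.V11296.CV.ev m (b : ZMod m)) :
          Pool.Agent.V11296.CW.Bk m k) ↔ PairPattern m k i j T d d') :=
      fun d d' h1 h2 => Pool.Agent.V11296.CW.pair_iff d d' i j h1 h2 T
    have hdisc' : B ^ 2 + 4 * c = t ^ 2 + 4 * A * C := by
      have h6 : ((B ^ 2 + 4 * c : ℕ) : ℤ) = ((t ^ 2 + 4 * A * C : ℕ) : ℤ) := by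
        push_cast
        linarith
      exact_mod_cast h6
    have hcf : ∀ X : ℕ, count A B C q u m k i j T X = Pool.Agent.V11296.CX.cf2 A B C q u
        (Pool.Agent.V11296.CW.H1 m k) (Pool.Agent.V11296.CW.H2 m k)
        (((i : ZMod k), (j : ZMod k), ∑ b ∈ T, Pool.Agent.V11296.CV.ev m (b : ZMod m)) :
          Pool.Agent.V11296.CW.Bk m k) X := by
      intro X
      unfold count Pool.Agent.V11296.CX.cf2
      congr 1
      ext n
      rw [mem_filter, mem_filter]
      refine and_congr_right fun _ => and_congr_right fun _ => ?_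
      refine exists_congr fun d => exists_congr fun d' => and_congr_right fun _ =>
        and_congr_right fun _ => and_congr_right fun hdd => ?_
      have hpos := Pool.Agent.V11296.CX.qv_pos hF ha hdisc n
      rw [hqv] at hpos
      have hd : d ≠ 0 := fun h => by rw [h, Nat.zero_mul] at hdd; omega
      have he : d' ≠ 0 := fun h => by rw [h, Nat.mul_zero] at hdd; omega
      exact (hiff d d' hd he).symm
    refine ⟨fun r s₁ s₂ s₃ s₄ h1 h2 h3 h4 ε hε => ?_, fun ε hε => ?_, fun δ hδ => ?_⟩
    · have h5 := Pool.Agent.V11296.CX.nullV hF hg _ ha hdisc q hq u r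
        (fun n d d' h6 h7 h8 _ h10 => hal n d d' h6 h7 h8 h10) s₁ s₂ s₃ s₄ h1 h2 h3 h4 ε hε
      have h6 : ∀ X : ℕ, Pool.Agent.W78.EG.SV (A : ℤ) (B : ℤ) (C : ℤ) q u r s₁ s₂ s₃ s₄ X =
          pairs A B C q u r s₁ s₂ s₃ s₄ X := by
        intro X
        unfold Pool.Agent.W78.EG.SV pairs
        ext p
        rw [mem_filter, mem_filter]
        refine and_congr_right fun _ => and_congr_right fun _ => and_congr_right fun _ => ?_
        constructor
        · rintro ⟨n, h7, h8, h9⟩
          exact ⟨h9, n, by exact_mod_cast h7, h8⟩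
        · rintro ⟨h9, n, h7, h8⟩
          exact ⟨n, by exact_mod_cast h7, h8, h9⟩
      refine Pool.Agent.TH890.DV.LogNull.of_ev 0 (fun X _ hX => ?_) h5
      refine lt_of_lt_of_eq hX ?_
      rw [h6]
      congr 1
      have h8 : ∑ p ∈ pairs A B C q u r s₁ s₂ s₃ s₄ X, (if Pool.Agent.V11296.CW.H1 m k p.1 +
            Pool.Agent.V11296.CW.H2 m k p.2 =
            (((i : ZMod k), (j : ZMod k), ∑ b ∈ T, Pool.Agent.V11296.CV.ev m (b : ZMod m)) :
              Pool.Agent.V11296.CW.Bk m k) then (1 : ℝ) else 0) =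
          (((pairs A B C q u r s₁ s₂ s₃ s₄ X).filter
            (fun p => PairPattern m k i j T p.1 p.2)).card : ℝ) := by
        rw [card_filter]
        push_cast
        refine sum_congr rfl fun p hp => ?_
        unfold pairs at hp
        rw [mem_filter, mem_product, mem_Icc, mem_Icc] at hp
        have h9 := hiff p.1 p.2 (by omega) (by omega)
        by_cases h10 : PairPattern m k i j T p.1 p.2
        · rw [if_pos h10, if_pos (h9.2 h10)]
        · rw [if_neg h10, if_neg (fun h11 => h10 (h9.1 h11))]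
      rw [sum_sub_distrib, sum_const, nsmul_eq_mul, hcard, ← h8, mul_comm]
      congr!
    · have h5 := Pool.Agent.V11296.CX.cntG hF hg _ hA hdisc' q hq u hal ε hε
      simp only [← hcf] at h5
      exact h5
    · have h5 := Pool.Agent.V11296.CX.cntGAll hF hg _ hA hdisc' q hq u hal δ hδ
      simp only [← hcf] at h5
      exact h5

end Pool.Agent.Results.MP_892e4c_nt.ClassPatterns
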