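import Pool.Agent.V11296.EA5

/-!
The Liouville function replaced by functions of the roots: for the quadratic polynomials
`f(n) = A n^2 + B n + C` whose discriminant is one of `-3, -4, -7, -8, -11, -19, -43, -67, -163`, in all
arithmetic progressions, sums over the prime factors `p` of `f(n)` of a function `e(p, n)` which
depends, in an arbitrary way, on `p` and on the root `n mod p` of `f` modulo `p`.

The starting files have the cancellation theorems `W251.EG.twG`, `W251.EG.tsG` for products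
`g₁(d) g₂(d')` of functions of integers over the factorisations `f(n) = d d'` (in particular for the
Liouville function), and the bilinear estimate `W251.EG.mainyG` behind them. Our
`ArbitraryPrimeFunctions` (problem MP_484c84_nt) has the windows for `n^2 + t n + c`.
-/

set_option autoImplicit false

namespace Pool.Agent.Results.MP_892e4c_nt.RootDependentFunctions

open Finset Filter

open scoped Classical in
/-- the set of the positive integers `X` with `P X` has logarithmic density `0` -/
def LogNull (P : ℕ → Prop) : Prop :=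
  Tendsto (fun Z : ℕ => (∑ X ∈ (Icc 1 Z).filter P, 1 / (X : ℝ)) / Real.log Z) atTop (nhds 0)

/-- the nine pairs `(t, c)` with `t` in `{0, 1}` and `x^2+tx+c` of discriminant `-4`, `-8`, `-3`,
`-7`, `-11`, `-19`, `-43`, `-67`, `-163` -/
def nine : List (ℕ × ℕ) :=
  [(0, 1), (0, 2), (1, 1), (1, 2), (1, 3), (1, 5), (1, 11), (1, 17), (1, 41)]

/-- `e(p, n)` depends only on `n mod p`, and its values at two different roots modulo the prime `p` of
`A x^2 + B x + C` have the sum `τ` -/
structure RootFunction {G : Type} [AddCommGroup G] (A B C : ℕ) (e : ℕ → ℕ → G) (τ : G) : Prop where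
  per : ∀ p n n' : ℕ, n ≡ n' [MOD p] → e p n = e p n'
  sum : ∀ p n n' : ℕ, p.Prime → p ∣ A * n ^ 2 + B * n + C → p ∣ A * n' ^ 2 + B * n' + C →
    ¬ n ≡ n' [MOD p] → e p n + e p n' = τ

open scoped Classical in
/-- for every proper subgroup `S` of `G`, the primes `p` with two different roots `n`, `n'` modulo `p`
of `A x^2 + B x + C` with `e(p, n) - e(p, n') ∈ S` have density `0` among the primes -/
def Generic {G : Type} [AddCommGroup G] (A B C : ℕ) (e : ℕ → ℕ → G) : Prop :=
  ∀ S : AddSubgroup G, S ≠ ⊤ → ∀ ε : ℝ, 0 < ε → ∃ N₀ : ℕ, ∀ N : ℕ, N₀ ≤ N →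
    ∑ p ∈ (Icc 1 N).filter (fun p => p.Prime ∧ ∃ n n' : ℕ, p ∣ A * n ^ 2 + B * n + C ∧
      p ∣ A * n' ^ 2 + B * n' + C ∧ ¬ n ≡ n' [MOD p] ∧ e p n - e p n' ∈ S), Real.log p ≤ ε * N

/-- the sum of `e(p, n)` over the prime factors `p` of `A n^2 + B n + C`, with multiplicity -/
def total {G : Type} [AddCommGroup G] (A B C : ℕ) (e : ℕ → ℕ → G) (n : ℕ) : G :=
  ((A * n ^ 2 + B * n + C).primeFactorsList.map (fun p => e p n)).sum

/-- the number of the prime factors of `n`, with multiplicity -/
def Omega (n : ℕ) : ℕ := n.primeFactorsList.length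

/-- the weight of `n`: the sum of `1 / max(d, d')` over all factorisations
`A n^2 + B n + C = d d'` -/
noncomputable def weight (A B C n : ℕ) : ℝ :=
  ∑ d ∈ (A * n ^ 2 + B * n + C).divisors,
    1 / ((max d ((A * n ^ 2 + B * n + C) / d) : ℕ) : ℝ)

open scoped Classical in
/-- the number of the `n ≤ X`, `n ≡ u mod q`, with `total n = g` and with a factorisation
`A n^2 + B n + C = d d'`, `d, d' ≤ X`, `Ω(d) ≡ i`, `Ω(d') ≡ j mod k` -/
noncomputable def count {G : Type} [AddCommGroup G] (A B C : ℕ) (e : ℕ → ℕ → G)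
    (k q u i j : ℕ) (g : G) (X : ℕ) : ℕ :=
  ((range (X + 1)).filter (fun n : ℕ => n ≡ u [MOD q] ∧ total A B C e n = g ∧
    ∃ d d' : ℕ, d ≤ X ∧ d' ≤ X ∧ d * d' = A * n ^ 2 + B * n + C ∧ Omega d ≡ i [MOD k] ∧
      Omega d' ≡ j [MOD k])).card

open scoped Classical in
/-- Let `f(n) = A n^2 + B n + C` with integers `A ≥ 1`, `B, C ≥ 0` have the discriminant of `x^2+tx+c`,
one of the nine polynomials (every quadratic polynomial with one of these discriminants and with a
positive leading coefficient becomes of this form after a shift of the variable). Let `G` be a finite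
abelian group, `τ` in `G`, and for every prime `p` and every residue class `n mod p` let `e(p, n)` in
`G` be given, such that `e(p, n) + e(p, n') = τ` for any two different roots `n`, `n'` of `f` modulo
`p`. Suppose that for every proper subgroup `S` of `G` the primes with `e(p, n) - e(p, n') ∈ S` have
density `0`; that is, `G` is cyclic and `e(p, n) - e(p, n')` is a generator of `G` for all `p` outside
a set of density `0`. Let `Θ(n)` be the sum of `e(p, n)` over the prime factors `p` of `f(n)`, with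
multiplicity. Let `k, q ≥ 1` and `u`.

1. For all `j` and all `g` in `G`, the `n ≡ u mod q` with `Ω(f(n)) ≡ j mod k` and `Θ(n) = g` have
relative density `1 / (k |G|)` in the progression `n ≡ u mod q`, with respect to the weights
`∑_{d d' = f(n)} 1 / max(d, d')`.

2. For all `i`, `j`, `g` and every `ε > 0`, outside a set of `X` of logarithmic density `0`, there are
at least `X / (log X)^(log 2 + ε)` integers `n ≤ X`, `n ≡ u mod q`, with `Θ(n) = g` and with a
factorisation `f(n) = d d'`, `d, d' ≤ X`, `Ω(d) ≡ i`, `Ω(d') ≡ j mod k`; and for every `δ > 0` and all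
large `X` there are at least `X^(1-δ)` of them. -/
theorem result (t c : ℕ) (htc : (t, c) ∈ nine) (A B C : ℕ) (hA : 1 ≤ A)
    (hdisc : B ^ 2 + 4 * c = t ^ 2 + 4 * A * C) (G : Type) [AddCommGroup G] [Finite G]
    (e : ℕ → ℕ → G) (τ : G) (he : RootFunction A B C e τ) (hgen : Generic A B C e) (k q u : ℕ)
    (hk : 1 ≤ k) (hq : 1 ≤ q) :
    (∀ (j : ℕ) (g : G), Tendsto (fun N : ℕ =>
      (∑ n ∈ (Icc 1 N).filter (fun n => n ≡ u [MOD q] ∧ Omega (A * n ^ 2 + B * n + C) ≡ j [MOD k] ∧
        total A B C e n = g), weight A B C n) /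
      ∑ n ∈ (Icc 1 N).filter (fun n => n ≡ u [MOD q]), weight A B C n) atTop
      (nhds (1 / ((k : ℝ) * Nat.card G)))) ∧
    (∀ (i j : ℕ) (g : G),
      (∀ ε : ℝ, 0 < ε → LogNull (fun X : ℕ => (count A B C e k q u i j g X : ℝ) <
        (X : ℝ) / Real.log X ^ (Real.log 2 + ε))) ∧
      (∀ δ : ℝ, 0 < δ → ∃ X₀ : ℕ, ∀ X : ℕ, X₀ ≤ X →
        (X : ℝ) ^ (1 - δ) ≤ count A B C e k q u i j g X)) := by
  obtain ⟨f, χ, hF⟩ := Pool.Agent.W251.EG.fd9 t c htc
  have hR := Pool.Agent.W251.EG.hl9 t c htc hF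
  have ht := Pool.Agent.W251.EG.t_le hF
  have hc := Pool.Agent.W251.EG.c_pos hF
  have : NeZero k := ⟨by omega⟩
  obtain ⟨β, hβ⟩ := Pool.Agent.V11296.CR.exists_beta ht hdisc
  have he' : Pool.Agent.V11296.EA.RVf A B C e τ := ⟨he.per, he.sum⟩
  have hg' : Pool.Agent.V11296.EA.GenVf A B C e := hgen
  have ha : (0 : ℤ) < (A : ℤ) := by exact_mod_cast hA
  have hdz : (B : ℤ) ^ 2 - 4 * (A : ℤ) * (C : ℤ) = (t : ℤ) ^ 2 - 4 * (c : ℤ) := by
    have h1 : ((B ^ 2 + 4 * c : ℕ) : ℤ) = ((t ^ 2 + 4 * A * C : ℕ) : ℤ) := by rw [hdisc]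
    push_cast at h1
    linarith
  have hdd : ∀ n d : ℕ, d ∈ (A * n ^ 2 + B * n + C).divisors →
      d * ((A * n ^ 2 + B * n + C) / d) = A * n ^ 2 + B * n + C := fun n d hd =>
    Nat.mul_div_cancel' (Nat.mem_divisors.1 hd).1
  refine ⟨?_, ?_⟩
  · intro j g
    have h0 := Pool.Agent.V11296.EA.wnV_T2 hF hR hA he' hg' hβ hdisc k
      (((A.primeFactorsList.length : ℕ) : ZMod k) + (j : ZMod k),
        Pool.Agent.V11296.EA.kA A B C β e τ + g) hq u
    have h := Pool.Agent.V11296.EA.tendV hF ha hdz hq h0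
    have hqv : ∀ n : ℕ, Pool.Agent.W78.EG.qv (A : ℤ) (B : ℤ) (C : ℤ) n =
        A * n ^ 2 + B * n + C := by
      intro n
      unfold Pool.Agent.W78.EG.qv
      exact_mod_cast Int.toNat_natCast (A * n ^ 2 + B * n + C)
    have hwt : ∀ n : ℕ, Pool.Agent.W78.EG.wq (A : ℤ) (B : ℤ) (C : ℤ) n = weight A B C n := by
      intro n
      unfold Pool.Agent.W78.EG.wq weight
      rw [hqv]
    push_cast at h
    refine h.congr fun N => ?_
    refine congrArg₂ (fun x y : ℝ => x / y) ?_ ?_
    · conv_rhs => rw [← filter_filter, sum_filter]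
      refine sum_congr (by congr!) fun n _ => ?_
      rw [hqv]
      by_cases h8 : Omega (A * n ^ 2 + B * n + C) ≡ j [MOD k] ∧ total A B C e n = g
      · rw [if_pos h8, sum_filter]
        unfold weight
        refine sum_congr rfl fun d hd => ?_
        rw [if_pos ((Pool.Agent.V11296.EA.prT_iff hF hR hA he' hβ hdisc k (hdd n d hd) j g).2 h8),
          Nat.cast_max]
      · rw [if_neg h8, sum_filter]
        refine sum_eq_zero fun d hd => ?_
        rw [if_neg (fun h9 => h8
          ((Pool.Agent.V11296.EA.prT_iff hF hR hA he' hβ hdisc k (hdd n d hd) j g).1 h9))]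
    · refine sum_congr (by congr!) fun n _ => hwt n
  · intro i j g
    have hk3 : 1 ≤ k ^ 2 * Nat.card G := Nat.mul_pos (Nat.one_le_pow _ _ hk) Nat.card_pos
    have h0 := Pool.Agent.V11296.EA.wnV_T hF hR hA he' hg' hβ hdisc k
      ((((A.primeFactorsList.length : ℕ) : ZMod k) + (i : ZMod k), (j : ZMod k)),
        Pool.Agent.V11296.EA.kA A B C β e τ + g) hq u
    have hcnt : ∀ X : ℕ, Pool.Agent.V11296.EA.cfv A B C q u
        (fun p => Pool.Agent.V11296.EA.HT c k (Pool.Agent.V11296.EA.vF A B C β e τ) (A * p.1, p.2))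
        ((((A.primeFactorsList.length : ℕ) : ZMod k) + (i : ZMod k), (j : ZMod k)),
        Pool.Agent.V11296.EA.kA A B C β e τ + g) X =
        count A B C e k q u i j g X := by
      intro X
      unfold Pool.Agent.V11296.EA.cfv count
      congr 1
      refine filter_congr fun n _ => ?_
      constructor
      · rintro ⟨h1, d, d', h2, h3, h4, h5⟩
        have h6 := (Pool.Agent.V11296.EA.HTf_iff hF hR hA he' hβ hdisc k h4 i j g).1 h5
        exact ⟨h1, h6.2.2, d, d', h2, h3, h4, h6.1, h6.2.1⟩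
      · rintro ⟨h1, h2, d, d', h3, h4, h5, h6, h7⟩
        exact ⟨h1, d, d', h3, h4, h5,
          (Pool.Agent.V11296.EA.HTf_iff hF hR hA he' hβ hdisc k h5 i j g).2 ⟨h6, h7, h2⟩⟩
    constructor
    · intro ε hε
      have h := Pool.Agent.V11296.EA.cntV hF hq hk3 hA hdisc h0 ε hε
      refine Pool.Agent.TH890.DV.LogNull.of_ev 0 (fun X _ hX => ?_) h
      rw [hcnt]
      exact hX
    · intro δ hδ
      obtain ⟨N₀, hN₀⟩ := Pool.Agent.V11296.EA.cntVAll hF hq hk3 hA hdisc h0 δ hδ
      refine ⟨N₀, fun X hX => ?_⟩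
      have h := hN₀ X hX
      rw [hcnt] at h
      exact h

end Pool.Agent.Results.MP_892e4c_nt.RootDependentFunctions
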