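import Pool.Agent.Results.MP_892e4c_nt.BoundedWindows
import Pool.Agent.V11285.W7

/-!
# The Liouville function at `F(m) + k` for ALL shifts `k` in windows around `± α v_n`

Let `v_n` grow at least like `exp (n ^ δ)`, for example `v_n = b ^ n`. For almost all `α > 0`, for all integer polynomials
`F` of degree `d ≥ 2` and ALL integers `k` with `| |k| - α v_n | ≤ (log v_n) ^ B`, `n` large, the Liouville function cancels
at the values `F(m) + k` in all windows of `m` longer than a power of `log |k|` at the real zeros of `F + k`; in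
particular it takes both signs at values of size at most `|k| ^ (1 - 1/d)` times a power of `log |k|`.
-/

set_option autoImplicit false

open Filter Topology MeasureTheory
open scoped Polynomial

namespace Pool.Agent.Results.MP_892e4c_nt.WindowsOfShifts

/-- the Liouville function on the integers: `(-1)^Ω(|v|)` for `v ≠ 0`, and `0` at `0` -/
noncomputable def lam (v : ℤ) : ℤ := if v = 0 then 0 else (-1) ^ ArithmeticFunction.cardFactors v.natAbs

/-- `v_n` grows at least like `exp (n ^ δ)` for some `δ > 0` -/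
def Fast (v : ℕ → ℝ) : Prop := ∃ δ : ℝ, 0 < δ ∧ ∀ᶠ n : ℕ in atTop, (n : ℝ) ^ δ ≤ Real.log (v n)

/-- in all windows `a < m ≤ b` with `b - a ≥ H` on which `|F(m) + k| ≤ κ (b - a) Z` and for all residue classes `r` modulo
`q ≤ Q` the sums of `λ(F(m) + k)` and of `μ(|F(m) + k|)` over the `m ≡ r` modulo `q` in the window are at most
`ε (b - a)` in absolute value -/
def Cancels (F : ℤ[X]) (κ ε : ℝ) (Q : ℕ) (H Z : ℝ) (k : ℤ) : Prop :=
  ∀ a b : ℤ, H ≤ (b : ℝ) - a →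
    (∀ m ∈ Finset.Ioc a b, |((F.eval m + k : ℤ) : ℝ)| ≤ κ * ((b : ℝ) - a) * Z) →
    ∀ (q : ℕ) (r : ℤ), 1 ≤ q → q ≤ Q →
      |∑ m ∈ (Finset.Ioc a b).filter (fun m => (q : ℤ) ∣ m - r), (lam (F.eval m + k) : ℝ)| ≤ ε * ((b : ℝ) - a) ∧
      |∑ m ∈ (Finset.Ioc a b).filter (fun m => (q : ℤ) ∣ m - r),
        ((ArithmeticFunction.moebius (F.eval m + k).natAbs : ℤ) : ℝ)| ≤ ε * ((b : ℝ) - a)

/-- if `F + k` takes negative and positive values on the integers, then `λ` takes both values `1` and `-1` at positive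
values `≤ Y` and at negative values `≥ -Y` of `F + k` -/
def BothSigns (F : ℤ[X]) (Y : ℝ) (k : ℤ) : Prop :=
  (∃ m : ℤ, F.eval m + k < 0) → (∃ m : ℤ, 0 < F.eval m + k) → ∀ s : ℤ, (s = 1 ∨ s = -1) →
    (∃ m : ℤ, 0 < F.eval m + k ∧ ((F.eval m + k : ℤ) : ℝ) ≤ Y ∧ lam (F.eval m + k) = s) ∧
    (∃ m : ℤ, F.eval m + k < 0 ∧ -Y ≤ ((F.eval m + k : ℤ) : ℝ) ∧ lam (F.eval m + k) = s)

lemma Cancels.mono {F : ℤ[X]} {κ κ' ε ε' : ℝ} {Q Q' : ℕ} {H H' Z Z' : ℝ} {k : ℤ} (h : Cancels F κ ε Q H Z k)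
    (hH : H ≤ H') (hH0 : 0 ≤ H) (hκ : κ' ≤ κ) (hκ0 : 0 ≤ κ) (hZ : Z' ≤ Z) (hZ0 : 0 ≤ Z') (hε : ε ≤ ε') (hQ : Q' ≤ Q) :
    Cancels F κ' ε' Q' H' Z' k := by
  intro a b hab hv q r hq hqQ
  have hab0 : 0 ≤ (b : ℝ) - a := by linarith
  have h1 := h a b (hH.trans hab) (fun m hm => (hv m hm).trans (by
    apply mul_le_mul (mul_le_mul_of_nonneg_right hκ hab0) hZ hZ0 (by positivity))) q r hq (hqQ.trans hQ)
  have h2 : ε * ((b : ℝ) - a) ≤ ε' * ((b : ℝ) - a) := mul_le_mul_of_nonneg_right hε hab0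
  exact ⟨h1.1.trans h2, h1.2.trans h2⟩

lemma BothSigns.mono {F : ℤ[X]} {Y Y' : ℝ} {k : ℤ} (h : BothSigns F Y k) (hY : Y ≤ Y') : BothSigns F Y' k := by
  intro h1 h2 s hs
  obtain ⟨⟨m, g1, g2, g3⟩, m', g1', g2', g3'⟩ := h h1 h2 s hs
  exact ⟨⟨m, g1, g2.trans hY, g3⟩, m', g1', le_trans (by linarith) g2', g3'⟩

instance countable_poly : Countable ℤ[X] := by
  rw [← Cardinal.mk_le_aleph0_iff]
  refine (Polynomial.cardinalMk_le_max (R := ℤ)).trans ?_
  simp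

/-- **All shifts in windows.** Let `v_n ≥ 1` grow at least like `exp (n ^ δ)` for some `δ > 0`, and let `B` be a natural
number. There is `D` such that for almost all `α > 0`, for all integer polynomials `F` of degree `d ≥ 2`, all
`κ, ε > 0` and `Q` there is `n₀` such that for all `n ≥ n₀` ALL integers `k` with `| |k| - α v_n | ≤ (log v_n) ^ B` have the
following properties.
* In all windows `a < m ≤ b` with `b - a ≥ (log |k|) ^ D` on which `|F(m) + k| ≤ κ (b - a) |k| ^ (1 - 1/d)`, and for all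
  residue classes modulo `q ≤ Q`, the sums of `λ(F(m) + k)` and `μ(|F(m) + k|)` are at most `ε (b - a)`.
* If `F + k` takes negative and positive values, then `λ` takes both signs at the positive values
  `≤ (log |k|) ^ D |k| ^ (1 - 1/d)` and at the negative values `≥ -(log |k|) ^ D |k| ^ (1 - 1/d)` of `F + k`.

An example is `v_n = b ^ n`, for all `b > 1`. -/
theorem result :
    (∀ v : ℕ → ℝ, (∀ n, 1 ≤ v n) → Fast v → ∀ B : ℕ, ∃ D : ℕ, ∀ᵐ α : ℝ, 0 < α →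
      ∀ F : ℤ[X], 2 ≤ F.natDegree → ∀ κ ε : ℝ, 0 < κ → 0 < ε → ∀ Q : ℕ, ∃ n₀ : ℕ, ∀ n : ℕ, n₀ ≤ n →
        ∀ k : ℤ, |(|(k : ℝ)|) - α * v n| ≤ Real.log (v n) ^ B →
          Cancels F κ ε Q (Real.log |(k : ℝ)| ^ D) (|(k : ℝ)| ^ (1 - 1 / (F.natDegree : ℝ))) k ∧
          BothSigns F (Real.log |(k : ℝ)| ^ D * |(k : ℝ)| ^ (1 - 1 / (F.natDegree : ℝ))) k) ∧
    (∀ b : ℝ, 1 < b → Fast (fun n : ℕ => b ^ n)) := by
  classical
  refine ⟨fun v hv hf B => ?_, fun b hb => Pool.Agent.V11285.W4.fast_geom b hb⟩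
  obtain ⟨P, -, hP⟩ := Pool.Agent.V11285.W4.Fast.summable hf
  have hf' : Pool.Agent.V11285.W4.Fast v := hf
  refine ⟨P + B + 1, ?_⟩
  have hall : ∀ᵐ α : ℝ, ∀ (F : ℤ[X]) (j Q A : ℕ), 2 ≤ F.natDegree → α ≤ A → ∃ (C : ℝ), 0 < C ∧
      ∃ n₀ : ℕ, ∀ n : ℕ, n₀ ≤ n → ∀ N : ℕ, 1 ≤ N →
      |(N : ℝ) - α * v n| ≤ (Real.log (v n)) ^ B → N ≤ ⌈((A : ℝ) + 1) * v n⌉₊ ∧
        ∀ k : ℤ, k.natAbs = N → 1 / ((j : ℝ) + 1) * (⌈((A : ℝ) + 1) * v n⌉₊ : ℝ) ≤ |(k : ℝ)| →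
          Cancels F j (1 / ((j : ℝ) + 1)) Q (Real.log (⌈((A : ℝ) + 1) * v n⌉₊ : ℝ) ^ (P + B))
            ((⌈((A : ℝ) + 1) * v n⌉₊ : ℝ) ^ (1 - 1 / (F.natDegree : ℝ))) k ∧
          BothSigns F (C * Real.log (⌈((A : ℝ) + 1) * v n⌉₊ : ℝ) ^ (P + B) *
            (⌈((A : ℝ) + 1) * v n⌉₊ : ℝ) ^ (1 - 1 / (F.natDegree : ℝ))) k := by
    rw [ae_all_iff]
    intro F
    rw [ae_all_iff]
    intro j
    rw [ae_all_iff]
    intro Q
    rw [ae_all_iff]
    intro A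
    by_cases hF : 2 ≤ F.natDegree
    swap
    · exact Eventually.of_forall fun α h1 => absurd h1 hF
    obtain ⟨C, hC, X₀, hX₀⟩ := BoundedWindows.result F hF ((j : ℝ) + 1) (1 / ((j : ℝ) + 1)) (1 / ((j : ℝ) + 1))
      (by positivity) (by positivity) (by positivity) (P + B) Q
    have h1 := Pool.Agent.V11285.W7.ae_scaleA
      (fun X N => ¬ ∀ k : ℤ, k.natAbs = N → 1 / ((j : ℝ) + 1) * (X : ℝ) ≤ |(k : ℝ)| →
          Cancels F j (1 / ((j : ℝ) + 1)) Q (Real.log (X : ℝ) ^ (P + B)) ((X : ℝ) ^ (1 - 1 / (F.natDegree : ℝ))) k ∧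
          BothSigns F (C * Real.log (X : ℝ) ^ (P + B) * (X : ℝ) ^ (1 - 1 / (F.natDegree : ℝ))) k) A B P hv hf' hP
      ⟨C, X₀ + 3, fun X hX => by
        have hX3 : (3 : ℝ) ≤ X := by exact_mod_cast (by omega : 3 ≤ X)
        have hlog1 : 1 ≤ Real.log X := by
          rw [Real.le_log_iff_exp_le (by linarith)]
          exact Real.exp_one_lt_d9.le.trans (by linarith)
        obtain ⟨S, hS1, hS2⟩ := hX₀ X (by omega) (Real.log X ^ (P + B)) (one_le_pow₀ hlog1) le_rfl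
        refine le_trans ?_ hS1
        have hsub : {N : ℕ | 1 ≤ N ∧ N ≤ X ∧ ¬ ∀ k : ℤ, k.natAbs = N → 1 / ((j : ℝ) + 1) * (X : ℝ) ≤ |(k : ℝ)| →
            Cancels F j (1 / ((j : ℝ) + 1)) Q (Real.log (X : ℝ) ^ (P + B)) ((X : ℝ) ^ (1 - 1 / (F.natDegree : ℝ))) k ∧
            BothSigns F (C * Real.log (X : ℝ) ^ (P + B) * (X : ℝ) ^ (1 - 1 / (F.natDegree : ℝ))) k} ⊆
            ((S.image Int.natAbs : Finset ℕ) : Set ℕ) := by
          rintro N ⟨hN1, hN2, hN3⟩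
          push Not at hN3
          obtain ⟨k, hk1, hk2, hk3⟩ := hN3
          rw [Finset.coe_image]
          refine ⟨k, ?_, hk1⟩
          by_contra hkS
          have hkX : |(k : ℝ)| ≤ X := by
            have : (k.natAbs : ℝ) ≤ X := by exact_mod_cast (hk1 ▸ hN2)
            rwa [Nat.cast_natAbs, Int.cast_abs] at this
          obtain ⟨g1, g2⟩ := hS2 k hk2 hkX hkS
          refine hk3 ?_ ?_
          · have g : Cancels F ((j : ℝ) + 1) (1 / ((j : ℝ) + 1)) Q (Real.log (X : ℝ) ^ (P + B))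
                ((X : ℝ) ^ (1 - 1 / (F.natDegree : ℝ))) k := g1
            exact g.mono le_rfl (by positivity) (by linarith) (by positivity) le_rfl (by positivity) le_rfl le_rfl
          · exact g2
        have hc := Set.ncard_le_ncard hsub (Finset.finite_toSet _)
        rw [Set.ncard_coe_finset] at hc
        exact_mod_cast hc.trans Finset.card_image_le⟩
    filter_upwards [h1] with α hα _ hA
    obtain ⟨n₀, hn₀⟩ := hα hA
    exact ⟨C, hC, n₀, fun n hn N hN hw => ⟨(hn₀ n hn N hN hw).1, not_not.1 (hn₀ n hn N hN hw).2⟩⟩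
  filter_upwards [hall] with α hα hα0 F hF κ ε hκ hε Q
  set γ : ℝ := 1 - 1 / (F.natDegree : ℝ) with hγ
  have hdeg : (2 : ℝ) ≤ F.natDegree := by exact_mod_cast hF
  have hγ0 : 0 ≤ γ := by
    have : 1 / (F.natDegree : ℝ) ≤ 1 := by
      rw [div_le_one (by linarith)]
      linarith
    rw [hγ]
    linarith
  have hγ1 : γ ≤ 1 := by
    have : 0 ≤ 1 / (F.natDegree : ℝ) := by positivity
    rw [hγ]
    linarith
  obtain ⟨A, hA⟩ := exists_nat_ge α
  have hA0 : (0 : ℝ) ≤ A := Nat.cast_nonneg A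
  set R : ℝ := 2 * ((A : ℝ) + 2) / α with hR
  have hR1 : 1 ≤ R := by
    rw [hR, le_div_iff₀ hα0]
    linarith
  obtain ⟨j, hj⟩ := exists_nat_ge (max κ (max (1 / ε) R))
  have hjκ : κ ≤ j := (le_max_left _ _).trans hj
  have hjε : 1 / ε ≤ j := ((le_max_left _ _).trans (le_max_right _ _)).trans hj
  have hjR : R ≤ j := ((le_max_right _ _).trans (le_max_right _ _)).trans hj
  have hjε' : 1 / ((j : ℝ) + 1) ≤ ε := by
    rw [div_le_iff₀ hε] at hjε
    rw [div_le_iff₀ (by positivity)]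
    nlinarith
  obtain ⟨C, hC, n₀, hn₀⟩ := hα F j Q A hF hA
  set M : ℝ := max 1 (max (Real.log R) (max (2 ^ (P + B)) (C * 2 ^ (P + B) * R ^ γ))) with hM
  obtain ⟨n₁, hn₁⟩ := Pool.Agent.V11285.W7.compare hv hf' A B hα0 M
  refine ⟨max n₀ n₁, fun n hn k hw => ?_⟩
  have hkr : ((k.natAbs : ℕ) : ℝ) = |(k : ℝ)| := by rw [Nat.cast_natAbs, Int.cast_abs]
  rw [← hkr] at hw
  obtain ⟨g1, g2, g3⟩ := hn₁ n ((le_max_right _ _).trans hn) k.natAbs hw
  obtain ⟨g4, g5⟩ := hn₀ n ((le_max_left _ _).trans hn) k.natAbs g2 hw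
  rw [← hR] at g3
  set X : ℕ := ⌈((A : ℝ) + 1) * v n⌉₊ with hX
  set N : ℕ := k.natAbs with hN
  have hN0 : (0 : ℝ) < N := by exact_mod_cast g2
  have hNX : (N : ℝ) ≤ X := by exact_mod_cast g4
  have hX0 : (0 : ℝ) < X := by linarith
  obtain ⟨g6, g7⟩ := g5 k rfl (by
    rw [← hkr, one_div_mul_eq_div, div_le_iff₀ (by positivity)]
    nlinarith)
  rw [← hkr]
  have hL1 : 1 ≤ Real.log N := (le_max_left _ _).trans g1
  have hLR : Real.log R ≤ Real.log N := ((le_max_left _ _).trans (le_max_right _ _)).trans g1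
  have hL2 : (2 : ℝ) ^ (P + B) ≤ Real.log N :=
    (((le_max_left _ _).trans (le_max_right _ _)).trans (le_max_right _ _)).trans g1
  have hL3 : C * 2 ^ (P + B) * R ^ γ ≤ Real.log N :=
    (((le_max_right _ _).trans (le_max_right _ _)).trans (le_max_right _ _)).trans g1
  have hlogX : Real.log X ≤ 2 * Real.log N := by
    calc Real.log X ≤ Real.log (R * N) := Real.log_le_log hX0 g3
      _ = Real.log R + Real.log N := Real.log_mul (by linarith) hN0.ne'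
      _ ≤ 2 * Real.log N := by linarith
  have hlogX1 : 1 ≤ Real.log X := hL1.trans (Real.log_le_log hN0 hNX)
  have hHX : Real.log X ^ (P + B) ≤ 2 ^ (P + B) * Real.log N ^ (P + B) := by
    rw [← mul_pow]
    exact pow_le_pow_left₀ (by linarith) hlogX _
  have hLN0 : 0 ≤ Real.log N ^ (P + B) := pow_nonneg (by linarith) _
  have hH : Real.log X ^ (P + B) ≤ Real.log N ^ (P + B + 1) := by
    refine hHX.trans ?_
    rw [pow_succ, mul_comm]
    exact mul_le_mul_of_nonneg_left hL2 hLN0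
  have hZ : (N : ℝ) ^ γ ≤ (X : ℝ) ^ γ := Real.rpow_le_rpow hN0.le hNX hγ0
  have hNγ : 0 ≤ (N : ℝ) ^ γ := Real.rpow_nonneg hN0.le _
  refine ⟨g6.mono hH (by positivity) hjκ (Nat.cast_nonneg j) hZ hNγ hjε' le_rfl, g7.mono ?_⟩
  have hXγ : (X : ℝ) ^ γ ≤ R ^ γ * (N : ℝ) ^ γ := by
    rw [← Real.mul_rpow (by linarith) hN0.le]
    exact Real.rpow_le_rpow hX0.le g3 hγ0
  calc C * Real.log X ^ (P + B) * (X : ℝ) ^ γ
      ≤ C * (2 ^ (P + B) * Real.log N ^ (P + B)) * (R ^ γ * (N : ℝ) ^ γ) := by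
        apply mul_le_mul (mul_le_mul_of_nonneg_left hHX hC.le) hXγ (Real.rpow_nonneg hX0.le _)
        positivity
    _ = (C * 2 ^ (P + B) * R ^ γ) * (Real.log N ^ (P + B) * (N : ℝ) ^ γ) := by ring
    _ ≤ Real.log N * (Real.log N ^ (P + B) * (N : ℝ) ^ γ) :=
        mul_le_mul_of_nonneg_right hL3 (mul_nonneg hLN0 hNγ)
    _ = Real.log N ^ (P + B + 1) * (N : ℝ) ^ γ := by ring

end Pool.Agent.Results.MP_892e4c_nt.WindowsOfShifts
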